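import Pool.Agent.H749.GX.Dq

/-!
# Finite generation of the Adams lines by `Sq⁰`-families, and `d₂` in almost all degrees

`C`, `Z`, `B` (file `GK/Def.lean`) are the cochains, cocycles and coboundaries of degree `s` and internal
degree `t` of the cobar complex of the mod 2 dual Steenrod algebra; `Ext^{s,t} = Z s t / B s t`. All
cochains lie in one polynomial ring `P` of characteristic 2, `Sq⁰` is `x ↦ x ^ 2`, and the product of
`x` of degree `a` and `y` is `x * shift a y`.

For a family of cocycles `g i` of degree `a i` and internal degree `e i` a list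
`l = (i₁, k₁), …, (i_m, k_m)` stands for the product `val a g l = (Sq⁰)^{k₁} g_{i₁} ⋯ (Sq⁰)^{k_m} g_{i_m}`
(file `GX/Df.lean`) on the line `line a l = ∑ a_{i_j}` and of the internal degree
`deg e l = ∑ 2^{k_j} e_{i_j}`. The condition `Adm e l` says that the gaps are wide: for every `j` the
internal degree of the product of the factors after the `j`-th is smaller than `2^{k_j}`. `up j l` is
the list with all `k` raised by `j`; the products `val a g (up j l)`, `j = 0, 1, …`, are the
`Sq⁰`-family of `val a g l`. `Der M l l'` says that `l'` arises from `l` by replacing one `i` by a `j` with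
`M i j`, that is, `l'` is a term of the derivation with the matrix `M` at `l`.

`Diffs` (file `Q171/ND3/Df.lean` of the library) are maps `d₂`, `d₃` with properties of the differentials
of the Adams spectral sequence of the sphere; of these only the additivity of `d₂` and Bruner's formula
`d₂ (Sq⁰ x) = h₀ Sq¹ x` are used in 2 and 3; in 4 also Bruner's formula for `d₃`, `d₂ d₂ = 0` and
`d₂ (h₀ y) = h₀ d₂ y`. `Cocycle r` are the cocycles of the library, `z.cls` is the class
of `z`, and `fam r j z.cls = (Sq⁰)^j z` is the `j`-th member of its `Sq⁰`-family.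

**Theorem.** Let `s` be a line.

1. There are finitely many cocycles `g i` of positive degrees `a i ≤ s` and internal degrees
   `e i = 2^{2s+1} D_i`, `D_i` odd and `< 2^{2s(2s+1)+1}`, such that for `r ≤ s` and `2^{2s+1} ∣ t` the
   products `val a g l` with wide gaps, `line a l = r` and `deg e l = t`, form a basis of `Ext^{r,t}`.
   The `Sq⁰`-family of a class `z` in `Ext^{r,t}` is the sum of the `Sq⁰`-families of the products in
   the expansion of `z`.
2. There is a matrix `M` with entries only for `a j = a i + 1`, `D j = D i`, such that for `r < s`,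
   `2^{2s+1} ∣ t`, `z` in `Ext^{r,t}` with the expansion `S`, and `j ≥ 3`, the member `(Sq⁰)^j z` is a
   `d₂`-cycle if and only if the derivation with the matrix `M` kills `S`.
3. For `1 ≤ r < s` there is a constant `C` such that for all `N`, among the degrees `t < 2^N` with
   `2^{2s+1} ∣ t` and `Ext^{r,t} ≠ 0` the proportion of those for which `d₂ (Sq⁰)^j z = 0` for some
   nonzero `z` in `Ext^{r,t}` and some `j ≥ 3`, is at most `C / N`.
4. For `4 ≤ r < s` there are constants `C`, `J` such that for all `N`, among the same degrees the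
   proportion of those for which `(Sq⁰)^j z` survives to `E₄` (`Survives₄`: `d₂ y = 0`, and `d₃ y = 0`
   modulo the image of `d₂`) for some nonzero `z` in `Ext^{r,t}` and some `j ≥ J`, is at most `C / N²`.

So every `Sq⁰`-family on the line `r < s` is, from its member with the number `2s+1` on, in a unique
way a finite sum of product families of finitely many `Sq⁰`-families; `d₂` vanishes either on all or
on none of its members with numbers `≥ 2s+4`, and the New Doomsday Conjecture holds on every line in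
almost all degrees, for all `Sq⁰`-families there. The degrees which are generic for (3) are those of
the products of `r` classes `h_k`. In (4) also the degrees of codimension one are treated, that is, the
degrees of products of `r - 1` families with wide gaps: either one of the families is on the 2-line
in the degrees `2^k D`, `D ≠ 1`, and `d₂` is injective, or the degree is a sum of `r - 1` powers of 2, and
one uses `d₂` and `d₃` (the theorem `SparseDegrees`; Bruner's formula for `d₃` enters here).
-/

set_option autoImplicit false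

namespace Pool.Agent.Results.MP_701abf_gt.FiniteGeneration

open Pool.Agent.H749.GK.St Pool.Agent.H749.GX
open Pool.Agent.Q171.ND3.St (Cocycle IsHom Diffs fam)

/-- The basis of products of finitely many `Sq⁰`-families, the kernel of `d₂`, and the vanishing of
`E₃` and `E₄` in almost all degrees. -/
theorem result (s : ℕ) :
    (∃ (ι : Type) (_ : Finite ι) (a D : ι → ℕ) (g : ι → P) (M : ι → ι → Prop),
      (∀ i, 1 ≤ a i ∧ a i ≤ s ∧ Odd (D i) ∧ D i < 2 ^ (2 * s * (2 * s + 1) + 1) ∧
        g i ∈ Z (a i) ((2 ^ (2 * s + 1) * D i : ℕ) : ℤ)) ∧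
      (∀ i j, M i j → a j = a i + 1 ∧ D j = D i) ∧
      (∀ r ≤ s, ∀ t : ℕ, 2 ^ (2 * s + 1) ∣ t →
        (∀ l : List (ι × ℕ), line a l = r → deg (fun i => 2 ^ (2 * s + 1) * D i) l = t →
          val a g l ∈ Z r (t : ℤ)) ∧
        ∀ z ∈ Z r (t : ℤ), ∃! S : Finset (List (ι × ℕ)),
          (∀ l ∈ S, Adm (fun i => 2 ^ (2 * s + 1) * D i) l ∧ line a l = r ∧
            deg (fun i => 2 ^ (2 * s + 1) * D i) l = t) ∧
          ∀ j : ℕ, z ^ (2 ^ j) + ∑ l ∈ S, val a g (up j l) ∈ B r ((2 ^ j * t : ℕ) : ℤ)) ∧
      ∀ (𝒟 : Diffs), ∀ r < s, ∀ t : ℕ, 2 ^ (2 * s + 1) ∣ t → ∀ z : Cocycle r, IsHom t z.val →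
        ∀ S : Finset (List (ι × ℕ)),
          (∀ l ∈ S, Adm (fun i => 2 ^ (2 * s + 1) * D i) l ∧ line a l = r ∧
            deg (fun i => 2 ^ (2 * s + 1) * D i) l = t) →
          z.val + ∑ l ∈ S, val a g l ∈ B r (t : ℤ) →
          ∀ j, 3 ≤ j → (𝒟.d₂ r (fam r j z.cls) = 0 ↔
            ∀ l', Even (Nat.card {l // l ∈ S ∧ Der M l l'}))) ∧
    (∀ r, 1 ≤ r → r < s → ∃ C : ℕ, ∀ N : ℕ,
      N * {t : ℕ | t < 2 ^ N ∧ 2 ^ (2 * s + 1) ∣ t ∧ ∃ (𝒟 : Diffs) (z : Cocycle r) (j : ℕ),
        3 ≤ j ∧ IsHom t z.val ∧ z.cls ≠ 0 ∧ 𝒟.d₂ r (fam r j z.cls) = 0}.ncard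
      ≤ C * {t : ℕ | t < 2 ^ N ∧ 2 ^ (2 * s + 1) ∣ t ∧ ∃ z : Cocycle r, IsHom t z.val ∧
        z.cls ≠ 0}.ncard) ∧
    ∀ r, 4 ≤ r → r < s → ∃ C J : ℕ, ∀ N : ℕ,
      N ^ 2 * {t : ℕ | t < 2 ^ N ∧ 2 ^ (2 * s + 1) ∣ t ∧ ∃ (𝒟 : Diffs) (z : Cocycle r) (j : ℕ),
        J ≤ j ∧ IsHom t z.val ∧ z.cls ≠ 0 ∧ 𝒟.Survives₄ r (fam r j z.cls)}.ncard
      ≤ C * {t : ℕ | t < 2 ^ N ∧ 2 ^ (2 * s + 1) ∣ t ∧ ∃ z : Cocycle r, IsHom t z.val ∧
        z.cls ≠ 0}.ncard :=
  ⟨main3 s, almost s, almost2 s⟩

end Pool.Agent.Results.MP_701abf_gt.FiniteGeneration
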