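import Pool.Agent.H749.GK.KF

/-!
# The Adams `E₂`-term near the late members of `Sq⁰`-families: a Künneth theorem

`Ext s t` is `Ext_A^{s,t}(𝔽₂, 𝔽₂)` for the mod 2 Steenrod algebra `A`: the cohomology of the cobar
complex of the dual Steenrod algebra `𝔽₂[ξ₁, ξ₂, …]` in degree `s` and internal degree `t : ℤ`
(file `Pool/Agent/H749/GK/Def.lean`; `C s t`, `Z s t`, `B s t` are the cochains, cocycles and
coboundaries, `cl x` is the class of a cocycle `x`, and `x * shift a y` is the product of a cochain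
`x` of degree `a` and a cochain `y`).

**Theorem.** Let `s, ρ ≥ 0`, let `T` be divisible by `2 ^ (ρ + 2 s + 1)` and let
`-2 ^ (ρ + 1) < c < 2 ^ ρ`. Then the products

  `⨁_{a + b = s} Ext^{a,T} ⊗ Ext^{b,c} → Ext^{s,T+c}`

form an isomorphism. (For `c < 0` the left side is zero, so that `Ext^{s,T+c} = 0`.)

The members `x_j` of a `Sq⁰`-family on the `s`-line lie in `Ext^{s,2^j t}`, and the possible targets
`Ext^{s+r,2^j t + r - 1}` of `d_r` on `x_j` are in the range of the theorem for all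
`j ≥ 2 (s + r) + 1 + log₂ r`: the target group is `⨁_b Ext^{s+r-b,2^j t} ⊗ Ext^{b,r-1}`.
-/

set_option autoImplicit false

namespace Pool.Agent.Results.MP_701abf_gt.KunnethNearPowersOfTwo

open Pool.Agent.H749.GK.St TensorProduct Finset

/-- If `2 ^ (ρ + 2 s + 1)` divides `T` and `-2 ^ (ρ + 1) < c < 2 ^ ρ`, then there is an isomorphism
from `⨁_{a + b = s} Ext^{a,T} ⊗ Ext^{b,c}` to `Ext^{s,T+c}`, which takes `[x] ⊗ [y]` in the summand
with the index `p = (a, b)` to the class of the product of the cocycles `x` and `y`. -/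
theorem result (s ρ : ℕ) (T c : ℤ) (hT : (2 : ℤ) ^ (ρ + 2 * s + 1) ∣ T)
    (hc : -2 ^ (ρ + 1) < c) (hc2 : c < 2 ^ ρ) :
    ∃ κ : ExtTensor s T c ≃ₗ[ZMod 2] Ext s (T + c),
      ∀ (p : antidiagonal s) (x : Z p.1.1 T) (y : Z p.1.2 c), ∃ w : Z s (T + c),
        w.1 = x.1 * shift p.1.1 y.1 ∧ κ (tens p x y) = cl w :=
  kunneth s ρ T c hT hc hc2

end Pool.Agent.Results.MP_701abf_gt.KunnethNearPowersOfTwo
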