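import Pool.Agent.H749.GS.Prc

/-!
# Products of two `Sq⁰`-families with a large gap

`Ext s` is the Adams `s`-line: the cohomology of the cobar complex of the mod 2 dual Steenrod algebra.
`x.cls` is the class of a cocycle `x`, `IsHom t x.val` says that its internal degree is `t`, `x.Sq k`
is `Sq^k` (the cup-`(s-k)` square) and `sq0` is `Sq⁰`. The product of the classes of cocycles `y`
of degree `a` and `v` is the class of `y * shift a v`, where `shift a` moves the slots by `a`. `Diffs`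
(file `Q171/ND3/Df.lean` of the library) are maps `d₂`, `d₃` with properties of the differentials of the
Adams spectral sequence of the sphere: `d₂` is additive, has the right bidegree, `d₂ d₂ = 0`, `d₂`
commutes with `h₀`, and Bruner's formulas `d₂ (Sq⁰ x) = h₀ Sq¹ x` and `d₃ (Sq⁰ Sq¹ x) = h₁ Sq² Sq¹ x`
(modulo the image of `d₂`) hold for classes `x` of even internal degree. `D.Survives₄ s y` says that
`d₂ y = 0` and that `d₃ y = 0` modulo the image of `d₂`.

**Theorem.** For every `s` there is a number `L` with the following properties.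

1. Let `y ∈ Ext^{a+1,T}` and `v ∈ Ext^{b+1,c}`, where `a + b = s`, `2 ^ n ∣ T`, `2 ^ L ∣ c`,
   `2 ^ L c ≤ 2 ^ n` and `L ≤ n`. Then `d₂ (y v) = 0` if and only if `y = 0` or `v = 0` or
   `d₂ y = 0` and `d₂ v = 0`.
2. Let `v ∈ Ext^{s+1,c}` and `u ∈ Ext^{s,c}`, where `2 ^ L ∣ c`, `2 ^ L c ≤ 2 ^ K` and `L ≤ K`. The class
   `h_{K+1} v + h_K² u` is killed by `d₂` if and only if `Sq⁰ v = Sq¹ u`, and it survives to `E₄` if and
   only if moreover `Sq² u = 0` and `Sq² v = 0`.

For `Sq⁰`-families `{y_j}`, `{v_j}`, `{u_j}` this means: if one of the families `{y_j}`, `{v_j}` supports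
`d₂`'s then for all large `k` the family `{y_{j+k} v_j}` satisfies the New Doomsday Conjecture (for
example `{h_{j+k} v_j}` for every `v`), and the families `{h_{j+k+1} v_j + h_{j+k}² u_j}` satisfy it
except possibly for the families `{h_{j+k+1} Sq¹ u_{j-1} + h_{j+k}² u_j}` with `Sq² u = 0` and
`Sq² Sq¹ u = 0` (up to `Sq⁰`-nilpotent classes). For `u = h_j` these are the families on the 3-line for
which the conjecture is open.
-/

set_option autoImplicit false

namespace Pool.Agent.Results.MP_701abf_gt.ProductFamilies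

open Pool.Agent.Q171.ND3.St MvPolynomial
open Pool.Agent.H749.GK.St (shift)

/-- `d₂` of the products `y v`, and the classes `h_{K+1} v + h_K² u` which survive to `E₄`. -/
theorem result (s : ℕ) : ∃ L : ℕ,
    (∀ (a b n T c : ℕ), a + b = s → L ≤ n → 2 ^ L ∣ c → 2 ^ L * c ≤ 2 ^ n → 2 ^ n ∣ T →
      ∀ (D : Diffs) (y : Cocycle (a + 1)) (v : Cocycle (b + 1)), IsHom T y.val → IsHom c v.val →
      ∀ w : Cocycle (a + 1 + (b + 1)), w.val = y.val * shift (a + 1) v.val →
      (D.d₂ (a + 1 + (b + 1)) w.cls = 0 ↔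
        y.cls = 0 ∨ v.cls = 0 ∨ (D.d₂ (a + 1) y.cls = 0 ∧ D.d₂ (b + 1) v.cls = 0))) ∧
    (∀ (K c : ℕ), L ≤ K → 2 ^ L ∣ c → 2 ^ L * c ≤ 2 ^ K →
      ∀ (D : Diffs) (v : Cocycle (s + 1)) (u : Cocycle s), IsHom c v.val → IsHom c u.val →
      ∀ w : Cocycle (s + 2), w.val = X (0, 0) ^ (2 ^ (K + 1)) * shift 1 v.val
        + X (0, 0) ^ (2 ^ K) * X (1, 0) ^ (2 ^ K) * shift 2 u.val →
      (D.d₂ (s + 2) w.cls = 0 ↔ sq0 (s + 1) v.cls = (u.Sq 1).cls) ∧
      (D.Survives₄ (s + 2) w.cls ↔ sq0 (s + 1) v.cls = (u.Sq 1).cls ∧ (u.Sq 2).cls = 0 ∧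
        (v.Sq 2).cls = 0)) := by
  obtain ⟨L₁, h₁⟩ := Pool.Agent.H749.GS.prodA s
  obtain ⟨L₂, h₂⟩ := Pool.Agent.H749.GS.prodB s
  refine ⟨L₁ + L₂, fun a b n T c hab hL hc hcn hT => ?_, fun K c hL hc hcK => ?_⟩
  · exact h₁ a b n T c hab (by omega) (dvd_trans (pow_dvd_pow 2 (by omega)) hc)
      (le_trans (Nat.mul_le_mul_right _ (Nat.pow_le_pow_right (by norm_num) (by omega))) hcn) hT
  · exact h₂ K c (by omega) (dvd_trans (pow_dvd_pow 2 (by omega)) hc)
      (le_trans (Nat.mul_le_mul_right _ (Nat.pow_le_pow_right (by norm_num) (by omega))) hcK)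

end Pool.Agent.Results.MP_701abf_gt.ProductFamilies
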