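import Pool.Agent.H749.GS.Fin

/-!
# The `E₄`-page of the Adams spectral sequence in sparse internal degrees

`Ext s` is the Adams `s`-line: the cohomology of the cobar complex of the mod 2 dual Steenrod algebra;
`IsDeg s t y` says that `y` lies in `Ext^{s,t}`. `Cocycle.Sq k` is the operation `Sq^k` on cocycles (the
cup-`(s-k)` square). `Diffs` (file `Q171/ND3/Df.lean` of the library) are maps `d₂`, `d₃` with
properties of the differentials of the Adams spectral sequence of the sphere: `d₂` is additive, has the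
right bidegree, `d₂ d₂ = 0`, `d₂` commutes with `h₀`, and Bruner's formulas `d₂ (Sq⁰ x) = h₀ Sq¹ x` and
`d₃ (Sq⁰ Sq¹ x) = h₁ Sq² Sq¹ x` (modulo the image of `d₂`) hold for classes `x` of even internal
degree. `D.Survives₄ s y` says that `d₂ y = 0` and that `d₃ y = 0` modulo the image of `d₂`.

**Theorem.** For every line there is a number `L` with the following property. Let `t = u + 2^{k_1} +
… + 2^{k_m}`, where `2 ^ L ∣ u`, `L ≤ k_1`, `2 ^ L u ≤ 2 ^ {k_1}` and `k_i + L ≤ k_{i+1}`, and let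
`Ext^{i,u} = 0` for all `i < b`. Then

1. for `s < b + 3 m` a class `y ∈ Ext^{s,t}` is killed by `d₂` if and only if `y = Sq¹ x` for some
   `x ∈ Ext^{s-1,t/2}`, and it survives to `E₄` if and only if moreover `Sq² Sq¹ x = 0`;
2. if `s ≤ b + m` and `m ≥ 1`, or `s ≤ b + m + 1` and `m ≥ 3`, or `s ≤ b + m + 2` and `m ≥ 5`, no
   nonzero class in `Ext^{s,t}` survives to `E₄`.

(The lowest line with `Ext^{s,t} ≠ 0` is `s = b + m` if `Ext^{b,u} ≠ 0`.) So the New Doomsday
Conjecture holds for all `Sq⁰`-families on the lines `s` of (2) which live in the degrees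
`t₀ = c + 2^{l_1} + … + 2^{l_m}` with `2 ^ L c ≤ 2 ^ {l_1}` and gaps `≥ L` (take `u = 2 ^ j c`,
`k_i = l_i + j`).

The proof computes `Ext^{s,t}` with the operations `Sq⁰`, `Sq¹`, `Sq²` as a tensor product over the
summands of `t`: in the degree `2^k` there are only `h_k` and `h_{k-1}² = Sq¹ h_{k-1}` below the
3-line, and the part of `Ext^{*,2^k}` on the lines `≥ 3` does not matter.
-/

set_option autoImplicit false

namespace Pool.Agent.Results.MP_701abf_gt.SparseDegrees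

open Pool.Agent.Q171.ND3.St Finset

/-- The classes on the line `s + 1` in sparse degrees `t = u + ∑_{i < m} 2 ^ (k i)`. -/
theorem result (s : ℕ) : ∃ L : ℕ, ∀ (u b m : ℕ) (k : ℕ → ℕ), 2 ^ L ∣ u →
    (∀ i < b, ∀ y : Ext i, IsDeg i u y → y = 0) → L ≤ k 0 → 2 ^ L * u ≤ 2 ^ k 0 →
    (∀ i, k i + L ≤ k (i + 1)) → ∀ (D : Diffs) (y : Ext (s + 1)),
    IsDeg (s + 1) (u + ∑ i ∈ range m, 2 ^ k i) y →
    (s + 1 < b + 3 * m →
      (D.d₂ (s + 1) y = 0 ↔ ∃ x : Cocycle s, IsHom ((u + ∑ i ∈ range m, 2 ^ k i) / 2) x.val ∧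
        (x.Sq 1).cls = y) ∧
      (D.Survives₄ (s + 1) y ↔ ∃ x : Cocycle s,
        IsHom ((u + ∑ i ∈ range m, 2 ^ k i) / 2) x.val ∧ (x.Sq 1).cls = y ∧
        ((x.Sq 1).Sq 2).cls = 0)) ∧
    ((1 ≤ m ∧ s + 1 ≤ b + m) ∨ (3 ≤ m ∧ s + 1 ≤ b + m + 1) ∨ (5 ≤ m ∧ s + 1 ≤ b + m + 2) →
      D.Survives₄ (s + 1) y → y = 0) :=
  Pool.Agent.H749.GS.sparse s

end Pool.Agent.Results.MP_701abf_gt.SparseDegrees
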